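import Pool.Agent.Hhelper30.FracLow.Low

/-!
# Codes and subgroup codes of fraction graphs, and the window bound
-/

namespace Pool.Agent.Hhelper30.FracLow

open Finset

/-- The sizes of the independent sets of the `n`-th strong power of `E_{p/q}`. -/
def Sizes (n p q : ℕ) : Set ℕ :=
  {k : ℕ | ∃ S : Finset (Fin n → ZMod p), S.card = k ∧
    ∀ x ∈ S, ∀ y ∈ S, x ≠ y → ∃ i, q ≤ (x i - y i).val ∧ q ≤ (y i - x i).val}

/-- The sizes of the independent subgroups of the `n`-th strong power of `E_{a/b}`, for all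
representations `a / b` of `p / q`. -/
def GrpSizes (n p q : ℕ) : Set ℕ :=
  {k : ℕ | ∃ a b : ℕ, 0 < b ∧ a * q = b * p ∧ ∃ H : AddSubgroup (Fin n → ZMod a),
    Nat.card H = k ∧ ∀ x ∈ H, x ≠ 0 → ∃ i, b ≤ (x i).val ∧ b ≤ (-x i).val}

theorem card_val_lt {p q : ℕ} [NeZero p] (h : q ≤ p) :
    ((univ : Finset (ZMod p)).filter fun z => z.val < q).card = q := by
  have e : ((univ : Finset (ZMod p)).filter fun z => z.val < q) =
      (range q).image (fun i : ℕ => (i : ZMod p)) := by
    ext z
    rw [mem_filter, mem_image]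
    constructor
    · rintro ⟨-, hz⟩
      exact ⟨z.val, mem_range.2 hz, ZMod.natCast_zmod_val z⟩
    · rintro ⟨i, hi, rfl⟩
      rw [mem_range] at hi
      exact ⟨mem_univ _, by rw [ZMod.val_natCast_of_lt (by omega)]; exact hi⟩
  rw [e, card_image_of_injOn, card_range]
  intro i hi j hj hij
  rw [coe_range, Set.mem_Iio] at hi hj
  have h1 : ((i : ℕ) : ZMod p).val = ((j : ℕ) : ZMod p).val := congrArg ZMod.val hij
  rw [ZMod.val_natCast_of_lt (by omega), ZMod.val_natCast_of_lt (by omega)] at h1
  exact h1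

/-- Two points of one window are not separated. -/
theorem window {p q : ℕ} [NeZero p] {x y c : ZMod p} (hx : (x - c).val < q)
    (hy : (y - c).val < q) : ¬ (q ≤ (x - y).val ∧ q ≤ (y - x).val) := by
  rintro ⟨h1, h2⟩
  rcases le_total (y - c).val (x - c).val with h | h
  · have e : (x - y).val = (x - c).val - (y - c).val := by
      rw [← ZMod.val_sub h]
      congr 1
      ring
    omega
  · have e : (y - x).val = (y - c).val - (x - c).val := by
      rw [← ZMod.val_sub h]
      congr 1
      ring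
    omega

/-- The window bound. -/
theorem window_bound {n p q A : ℕ} (hq : 0 < q) (hpq : q ≤ p)
    (hA : ∀ k ∈ Sizes n p q, k ≤ A) : ∀ k ∈ Sizes (n + 1) p q, k * q ≤ p * A := by
  have : NeZero p := ⟨by omega⟩
  rintro k ⟨S, rfl, hS⟩
  have h1 : ∀ c : ZMod p, (S.filter fun x => (x 0 - c).val < q).card ≤ A := by
    intro c
    apply hA
    refine ⟨(S.filter fun x => (x 0 - c).val < q).image Fin.tail, ?_, ?_⟩
    · rw [card_image_of_injOn]
      intro x hx y hy hxy
      by_contra hne
      rw [coe_filter, Set.mem_ofPred_eq] at hx hy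
      obtain ⟨i, hi⟩ := hS x hx.1 y hy.1 hne
      induction i using Fin.cases with
      | zero => exact window hx.2 hy.2 hi
      | succ j =>
        have h2 : x j.succ = y j.succ := congrFun hxy j
        rw [h2, sub_self, ZMod.val_zero] at hi
        omega
    · intro u hu v hv huv
      rw [mem_image] at hu hv
      obtain ⟨x, hx, rfl⟩ := hu
      obtain ⟨y, hy, rfl⟩ := hv
      rw [mem_filter] at hx hy
      have hne : x ≠ y := fun h => huv (by rw [h])
      obtain ⟨i, hi⟩ := hS x hx.1 y hy.1 hne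
      induction i using Fin.cases with
      | zero => exact (window hx.2 hy.2 hi).elim
      | succ j => exact ⟨j, hi⟩
  have h2 : ∑ c : ZMod p, (S.filter fun x => (x 0 - c).val < q).card = S.card * q := by
    have e : ∀ c : ZMod p, (S.filter fun x => (x 0 - c).val < q).card =
        ∑ x ∈ S, if (x 0 - c).val < q then 1 else 0 := fun c => card_filter _ _
    simp_rw [e]
    rw [sum_comm, ← smul_eq_mul, ← sum_const]
    refine sum_congr rfl fun x _ => ?_
    rw [← card_filter]
    refine Eq.trans ?_ (card_val_lt (p := p) hpq)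
    refine card_bij (fun c _ => x 0 - c) ?_ ?_ ?_
    · intro c hc
      rw [mem_filter] at hc ⊢
      exact ⟨mem_univ _, hc.2⟩
    · intro c _ d _ hcd
      exact sub_right_injective hcd
    · intro z hz
      rw [mem_filter] at hz
      refine ⟨x 0 - z, ?_, by ring⟩
      rw [mem_filter]
      refine ⟨mem_univ _, ?_⟩
      have : x 0 - (x 0 - z) = z := by ring
      rw [this]
      exact hz.2
  calc S.card * q = ∑ c : ZMod p, (S.filter fun x => (x 0 - c).val < q).card := h2.symm
    _ ≤ ∑ c : ZMod p, A := sum_le_sum fun c _ => h1 c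
    _ = p * A := by rw [sum_const, card_univ, ZMod.card, smul_eq_mul]

theorem sizes_zero {p q : ℕ} : ∀ k ∈ Sizes 0 p q, k ≤ 1 := by
  rintro k ⟨S, rfl, -⟩
  exact Finset.card_le_one.2 fun x _ y _ => Subsingleton.elim x y

/-- A subgroup code is a code. -/
theorem grp_sizes {n a b : ℕ} [NeZero a] {H : AddSubgroup (Fin n → ZMod a)}
    (hH : IsCode b H) : Nat.card H ∈ Sizes n a b := by
  classical
  refine ⟨univ.filter fun x => x ∈ H, ?_, ?_⟩
  · rw [Nat.card_eq_fintype_card, Fintype.card_subtype]
  · intro x hx y hy hxy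
    rw [mem_filter] at hx hy
    obtain ⟨i, h1, h2⟩ := hH (x - y) (H.sub_mem hx.2 hy.2) (sub_ne_zero.2 hxy)
    refine ⟨i, h1, ?_⟩
    rw [Pi.sub_apply, neg_sub] at h2
    exact h2

theorem repr_pos {a b p q : ℕ} (hb : 0 < b) (hq : 0 < q) (hpq : 2 * q ≤ p)
    (h : a * q = b * p) : 0 < a ∧ 2 * b ≤ a := by
  have hp : 0 < p := by omega
  have h1 : 2 * b * q ≤ a * q := by
    rw [h]
    calc 2 * b * q = b * (2 * q) := by ring
      _ ≤ b * p := Nat.mul_le_mul_left b hpq
  have h2 := Nat.le_of_mul_le_mul_right h1 hq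
  exact ⟨by omega, h2⟩

/-- The first four window bounds, for a general representation. -/
theorem chain {n a b p q A B : ℕ} (hb : 0 < b) (hq : 0 < q) (hpq : 2 * q ≤ p)
    (h : a * q = b * p) (hA : ∀ k ∈ Sizes n a b, k ≤ A) (hAB : ∀ k, k * q ≤ p * A → k ≤ B) :
    ∀ k ∈ Sizes (n + 1) a b, k ≤ B := by
  obtain ⟨ha, h2⟩ := repr_pos hb hq hpq h
  intro k hk
  apply hAB
  have h1 := window_bound hb (by omega) hA k hk
  have h3 : k * q * b ≤ p * A * b := by
    calc k * q * b = k * b * q := by ring
      _ ≤ a * A * q := Nat.mul_le_mul_right q h1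
      _ = a * q * A := by ring
      _ = p * A * b := by rw [h]; ring
  exact Nat.le_of_mul_le_mul_right h3 hb

end Pool.Agent.Hhelper30.FracLow
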