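import Mathlib

/-!
# Counting multiples near one half

Elementary counting in residue classes, used for subgroup codes of fraction graphs (MP_fc334d_co).
-/

namespace Pool.Agent.Hhelper30.FracLow

open Finset

/-- The number of `k < r d` in one class modulo `r`. -/
theorem card_cls {r : ℕ} (hr : 0 < r) (d c : ℕ) :
    ((range (r * d)).filter fun k => k ≡ c [MOD r]).card = d := by
  rw [← Nat.count_eq_card_filter_range, Nat.count_modEq_card _ hr]
  have h1 : r * d / r = d := Nat.mul_div_cancel_left d hr
  have h2 : r * d % r = 0 := Nat.mul_mod_right r d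
  rw [h1, h2]
  simp

/-- Equidistribution of `k v` modulo `r` for `v` coprime to `r`. -/
theorem card_pred {r : ℕ} (hr : 0 < r) (d v : ℕ) (hv : Nat.Coprime v r) (P : ℕ → Prop)
    [DecidablePred P] :
    ((range (r * d)).filter fun k => P ((k * v) % r)).card
      = d * ((range r).filter P).card := by
  have : NeZero r := ⟨hr.ne'⟩
  rw [card_eq_sum_card_fiberwise (f := fun k => (k * v) % r) (t := (range r).filter P)]
  · rw [sum_const_nat (m := d)]
    · ring
    · intro j hj
      rw [mem_filter, mem_range] at hj
      obtain ⟨k₀, hk₀⟩ : ∃ k₀ : ℕ, k₀ * v ≡ j [MOD r] := by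
        refine ⟨(((j : ℕ) : ZMod r) * ((ZMod.unitOfCoprime v hv)⁻¹ : (ZMod r)ˣ)).val, ?_⟩
        rw [← ZMod.natCast_eq_natCast_iff]
        push_cast
        rw [ZMod.natCast_zmod_val, mul_assoc]
        have e : (v : ZMod r) = ((ZMod.unitOfCoprime v hv : (ZMod r)ˣ) : ZMod r) :=
          (ZMod.coe_unitOfCoprime v hv).symm
        rw [e, Units.inv_mul, mul_one]
      have e : ((range (r * d)).filter fun k => P ((k * v) % r)).filter
          (fun k => (k * v) % r = j) = (range (r * d)).filter fun k => k ≡ k₀ [MOD r] := by
        ext k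
        simp only [mem_filter, mem_range]
        have key : (k * v) % r = j ↔ k ≡ k₀ [MOD r] := by
          constructor
          · intro h
            have h1 : k * v ≡ k₀ * v [MOD r] := by
              have h2 : k * v ≡ j [MOD r] := by
                unfold Nat.ModEq
                rw [h, Nat.mod_eq_of_lt hj.1]
              exact h2.trans hk₀.symm
            exact Nat.ModEq.cancel_right_of_coprime
              (by rw [Nat.gcd_comm]; exact hv) h1
          · intro h
            have h1 : k * v ≡ j [MOD r] := (h.mul_right v).trans hk₀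
            unfold Nat.ModEq at h1
            rw [h1, Nat.mod_eq_of_lt hj.1]
        constructor
        · rintro ⟨⟨h1, -⟩, h3⟩
          exact ⟨h1, key.1 h3⟩
        · rintro ⟨h1, h3⟩
          have h4 := key.2 h3
          exact ⟨⟨h1, by rw [h4]; exact hj.2⟩, h4⟩
      rw [e, card_cls hr]
  · intro k hk
    simp only [coe_filter, Set.mem_ofPred_eq, mem_range] at hk ⊢
    exact ⟨Nat.mod_lt _ hr, hk.2⟩

/-- The number of odd `t` with `t p ≤ A`, twice: points `j` with `|2 j - M| p ≤ A`, `M` odd. -/
theorem card_odd {M p A : ℕ} (hp : 0 < p) (hM : M % 2 = 1) (P : ℕ → Prop) [DecidablePred P]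
    (hP : ∀ j, P j → 2 * j * p ≤ M * p + A ∧ M * p ≤ 2 * j * p + A) :
    ((range M).filter P).card ≤ 2 * ((A / p + 1) / 2) := by
  set B := A / p with hB
  have hlt : A < (B + 1) * p := by
    rw [hB, mul_comm]
    exact Nat.lt_mul_div_succ A hp
  have hsub : (range M).filter P ⊆ (range ((B + 1) / 2)).image (fun i => (M + 1) / 2 + i) ∪
      (range ((B + 1) / 2)).image (fun i => (M - 1) / 2 - i) := by
    intro j hj
    rw [mem_filter, mem_range] at hj
    obtain ⟨h1, h2⟩ := hP j hj.2
    rw [mem_union, mem_image, mem_image]
    rcases Nat.lt_or_ge M (2 * j) with h | h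
    · left
      have h3 : (2 * j - M) * p < (B + 1) * p := by
        have : (2 * j - M) * p + M * p = 2 * j * p := by
          rw [← Nat.add_mul]
          congr 1
          omega
        omega
      have h4 : 2 * j - M < B + 1 := Nat.lt_of_mul_lt_mul_right h3
      refine ⟨j - (M + 1) / 2, ?_, ?_⟩
      · rw [mem_range]
        omega
      · omega
    · right
      have h3 : (M - 2 * j) * p < (B + 1) * p := by
        have : (M - 2 * j) * p + 2 * j * p = M * p := by
          rw [← Nat.add_mul]
          congr 1
          omega
        omega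
      have h4 : M - 2 * j < B + 1 := Nat.lt_of_mul_lt_mul_right h3
      refine ⟨(M - 1) / 2 - j, ?_, ?_⟩
      · rw [mem_range]
        omega
      · omega
  calc ((range M).filter P).card ≤ _ := card_le_card hsub
    _ ≤ _ := card_union_le _ _
    _ ≤ (B + 1) / 2 + (B + 1) / 2 := by
      refine Nat.add_le_add ?_ ?_
      · exact card_image_le.trans (card_range _).le
      · exact card_image_le.trans (card_range _).le
    _ = 2 * ((B + 1) / 2) := by ring

/-- Even case: odd `j < M`, `4 ∣ M`, with `|2 j - M| p ≤ A`. -/
theorem card_even {M p A : ℕ} (hp : 0 < p) (hM : M % 4 = 0) (P : ℕ → Prop) [DecidablePred P]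
    (hP : ∀ j, P j → j % 2 = 1 ∧ 2 * j * p ≤ M * p + A ∧ M * p ≤ 2 * j * p + A) :
    ((range M).filter P).card * p ≤ A := by
  set B := A / (2 * p) with hB
  have hBp : B * (2 * p) ≤ A := Nat.div_mul_le_self _ _
  have hlt : A < (B + 1) * (2 * p) := by
    rw [hB, mul_comm (A / (2 * p) + 1)]
    exact Nat.lt_mul_div_succ A (by omega)
  have hsub : (range M).filter P ⊆ (range B).image (fun i => M / 2 + 1 + i) ∪
      (range B).image (fun i => M / 2 - 1 - i) := by
    intro j hj
    rw [mem_filter, mem_range] at hj
    obtain ⟨h0, h1, h2⟩ := hP j hj.2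
    have e2 : M * p = (M / 2) * (2 * p) := by
      have : M = M / 2 * 2 := by omega
      calc M * p = (M / 2 * 2) * p := by rw [← this]
        _ = (M / 2) * (2 * p) := by ring
    have e3 : 2 * j * p = j * (2 * p) := by ring
    rw [mem_union, mem_image, mem_image]
    rcases Nat.lt_or_ge (M / 2) j with h | h
    · left
      have h3 : (j - M / 2) * (2 * p) < (B + 1) * (2 * p) := by
        have : (j - M / 2) * (2 * p) + (M / 2) * (2 * p) = j * (2 * p) := by
          rw [← Nat.add_mul]
          congr 1
          omega
        omega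
      have h4 : j - M / 2 < B + 1 := Nat.lt_of_mul_lt_mul_right h3
      refine ⟨j - M / 2 - 1, ?_, ?_⟩
      · rw [mem_range]
        omega
      · omega
    · right
      have h3 : (M / 2 - j) * (2 * p) < (B + 1) * (2 * p) := by
        have : (M / 2 - j) * (2 * p) + j * (2 * p) = (M / 2) * (2 * p) := by
          rw [← Nat.add_mul]
          congr 1
          omega
        omega
      have h4 : M / 2 - j < B + 1 := Nat.lt_of_mul_lt_mul_right h3
      refine ⟨M / 2 - 1 - j, ?_, ?_⟩
      · rw [mem_range]
        omega
      · omega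
  have hc : ((range M).filter P).card ≤ 2 * B := by
    calc ((range M).filter P).card ≤ _ := card_le_card hsub
      _ ≤ _ := card_union_le _ _
      _ ≤ B + B := by
        refine Nat.add_le_add ?_ ?_
        · exact card_image_le.trans (card_range B).le
        · exact card_image_le.trans (card_range B).le
      _ = 2 * B := by ring
  calc ((range M).filter P).card * p ≤ 2 * B * p := Nat.mul_le_mul_right p hc
    _ = B * (2 * p) := by ring
    _ ≤ A := hBp

end Pool.Agent.Hhelper30.FracLow
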