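import Pool.Agent.Hhelper30.FracLow.Scale

/-!
# Dimensions at most four
-/

namespace Pool.Agent.Hhelper30.FracLow

open Finset

/-- The order of a subgroup code in small dimension. -/
theorem card_le_two_pow {n a b p q : ℕ} (hb : 0 < b) (hq : 0 < q) (hpq : 2 * q ≤ p)
    (h : a * q = b * p) (hn : n * (p - 2 * q) < q) {H : AddSubgroup (Fin n → ZMod a)}
    (hH : IsCode b H) : Nat.card H ∣ 2 ^ n := by
  obtain ⟨ha, -⟩ := repr_pos hb hq hpq h
  have : NeZero a := ⟨ha.ne'⟩
  have h1 := card_part_dvd (S := univ) hb hq hpq h hH (by rw [card_univ, Fintype.card_fin]; exact hn)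
  have e : part H univ = H := by
    ext x
    constructor
    · intro hx
      exact hx.1
    · intro hx
      exact ⟨hx, fun i hi => (hi (mem_univ i)).elim⟩
  rw [e, card_univ, Fintype.card_fin] at h1
  exact h1

theorem isGreatest_two_pow {n p q : ℕ} (hq : 0 < q) (hpq : 2 * q ≤ p)
    (hn : n * (p - 2 * q) < q) : IsGreatest (GrpSizes n p q) (2 ^ n) := by
  constructor
  · exact grpSizes_mono one_pos le_rfl hq (by omega) (two_pow_mem n)
  · rintro k ⟨a, b, hb, hab, H, rfl, hH⟩
    exact Nat.le_of_dvd (by positivity) (card_le_two_pow hb hq hpq hab hn hH)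

theorem sizes_le_one {a b p q : ℕ} (hb : 0 < b) (hq : 0 < q) (hpq : 2 * q ≤ p)
    (h : a * q = b * p) : ∀ k ∈ Sizes 1 a b, k ≤ p / q := by
  refine chain hb hq hpq h sizes_zero fun k hk => ?_
  rw [Nat.le_div_iff_mul_le hq]
  omega

theorem sizes_le_two {a b p q : ℕ} (hb : 0 < b) (hq : 0 < q) (hpq : 2 * q ≤ p)
    (h : a * q = b * p) : ∀ k ∈ Sizes 2 a b, k ≤ p * (p / q) / q := by
  refine chain hb hq hpq h (sizes_le_one hb hq hpq h) fun k hk => ?_
  rw [Nat.le_div_iff_mul_le hq]
  exact hk

/-- The plane: a subgroup code of the largest possible size. -/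
theorem plane_mem {p q : ℕ} (hq : 0 < q) (hpq : 2 * q ≤ p) :
    p * (p / q) / q ∈ GrpSizes 2 p q := by
  set m := p / q with hm
  set N := p * m / q with hN
  have hp : 0 < p := by omega
  have hm2 : 2 ≤ m := (Nat.le_div_iff_mul_le hq).2 hpq
  have hmq : m * q ≤ p := Nat.div_mul_le_self p q
  have hNq : N * q ≤ p * m := Nat.div_mul_le_self _ _
  have hN2 : m * m ≤ N := by
    rw [hN, Nat.le_div_iff_mul_le hq]
    calc m * m * q = m * q * m := by ring
      _ ≤ p * m := Nat.mul_le_mul_right m hmq
  have hN0 : 0 < N := lt_of_lt_of_le (Nat.mul_pos (by omega) (by omega)) hN2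
  have : NeZero N := ⟨hN0.ne'⟩
  have hb : 0 < N * q := Nat.mul_pos hN0 hq
  -- the main inequality
  have key : ∀ v : ℕ, 0 < v → v < m → v * m < N ∧ N * q ≤ v * m * p ∧
      v * m * p + N * q ≤ N * p := by
    intro v hv0 hvm
    have h1 : v * m ≤ (m - 1) * m := Nat.mul_le_mul_right m (by omega)
    have h2 : (m - 1) * m + m = m * m := by
      obtain ⟨m', hm'⟩ := Nat.exists_eq_succ_of_ne_zero (by omega : m ≠ 0)
      rw [hm']
      simp only [Nat.succ_eq_add_one, Nat.add_sub_cancel]
      ring
    refine ⟨by omega, ?_, ?_⟩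
    · calc N * q ≤ p * m := hNq
        _ = 1 * m * p := by ring
        _ ≤ v * m * p := Nat.mul_le_mul_right p (Nat.mul_le_mul_right m hv0)
    · obtain ⟨e, he⟩ := Nat.exists_eq_add_of_le (show q ≤ p by omega)
      have h3 : N * p = N * q + N * e := by rw [he]; ring
      have h4 : m * m * e ≤ N * e := Nat.mul_le_mul_right e hN2
      have h5 : v * m * p ≤ m * m * e := by
        have h6 : (m - 1) * p ≤ m * e := by
          have h7 : (m - 1) * p + p = m * p := by
            obtain ⟨m', hm'⟩ := Nat.exists_eq_succ_of_ne_zero (by omega : m ≠ 0)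
            rw [hm']
            simp only [Nat.succ_eq_add_one, Nat.add_sub_cancel]
            ring
          have h8 : m * p = m * q + m * e := by rw [he]; ring
          omega
        calc v * m * p ≤ (m - 1) * m * p := Nat.mul_le_mul_right p h1
          _ = m * ((m - 1) * p) := by ring
          _ ≤ m * (m * e) := Nat.mul_le_mul_left m h6
          _ = m * m * e := by ring
      omega
  obtain ⟨H, hH1, hH2⟩ := cyclic_mem (n := 2) (N := N) (b := N * q) (p := p) hb hp ![m, 1] 1 rfl
    (by
      intro h hh
      have hv := ZMod.val_lt h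
      have hv0 : 0 < h.val := by
        rcases Nat.eq_zero_or_pos h.val with h0 | h0
        · exact (hh ((ZMod.val_eq_zero h).1 h0)).elim
        · exact h0
      by_cases hA : N * q ≤ h.val * p
      · by_cases hB : h.val * p + N * q ≤ N * p
        · refine ⟨1, ?_⟩
          simp only [Matrix.cons_val_one, Matrix.cons_val_fin_one, Nat.cast_one, one_mul]
          exact ⟨hA, hB⟩
        · -- `w = N - h.val < m`
          push Not at hB
          have hw : (N - h.val) * p < m * p := by
            have h1 : (N - h.val) * p + h.val * p = N * p := by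
              rw [← Nat.add_mul]
              congr 1
              omega
            have h2 : p * m = m * p := mul_comm _ _
            omega
          obtain ⟨k1, k2, k3⟩ := key (N - h.val) (by omega) (Nat.lt_of_mul_lt_mul_right hw)
          set w := N - h.val with hw'
          have hval : (((m : ℕ) : ZMod N) * h).val = N - w * m := by
            have e1 : ((m : ℕ) : ZMod N) * h = ((N - w * m : ℕ) : ZMod N) := by
              rw [Nat.cast_sub k1.le, ZMod.natCast_self]
              conv_lhs => rw [← ZMod.natCast_zmod_val h]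
              have e2 : h.val = N - w := by omega
              rw [e2, Nat.cast_sub (by omega), ZMod.natCast_self]
              push_cast
              ring
            rw [e1, ZMod.val_natCast_of_lt]
            have : 0 < w * m := Nat.mul_pos (by omega) (by omega)
            omega
          refine ⟨0, ?_⟩
          simp only [Matrix.cons_val_zero]
          rw [hval]
          have h3 : (N - w * m) * p + w * m * p = N * p := by
            rw [← Nat.add_mul]
            congr 1
            omega
          constructor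
          · omega
          · omega
      · push Not at hA
        have hw : h.val * p < m * p := by
          have h2 : p * m = m * p := mul_comm _ _
          omega
        obtain ⟨k1, k2, k3⟩ := key h.val hv0 (Nat.lt_of_mul_lt_mul_right hw)
        have hval : (((m : ℕ) : ZMod N) * h).val = h.val * m := by
          have e1 : ((m : ℕ) : ZMod N) * h = ((h.val * m : ℕ) : ZMod N) := by
            push_cast
            rw [ZMod.natCast_zmod_val]
            ring
          rw [e1, ZMod.val_natCast_of_lt k1]
        refine ⟨0, ?_⟩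
        simp only [Matrix.cons_val_zero]
        rw [hval]
        exact ⟨k2, k3⟩)
  exact ⟨N * p, N * q, hb, by ring, H, hH1, hH2⟩

theorem plane {p q : ℕ} (hq : 0 < q) (hpq : 2 * q ≤ p) :
    IsGreatest (GrpSizes 2 p q) (p * (p / q) / q) ∧
    IsGreatest (Sizes 2 p q) (p * (p / q) / q) := by
  refine ⟨⟨plane_mem hq hpq, ?_⟩, ?_, ?_⟩
  · rintro k ⟨a, b, hb, hab, H, rfl, hH⟩
    obtain ⟨ha, -⟩ := repr_pos hb hq hpq hab
    have : NeZero a := ⟨ha.ne'⟩
    exact sizes_le_two hb hq hpq hab _ (grp_sizes hH)
  · obtain ⟨a, b, hb, hab, H, hk, hH⟩ := plane_mem hq hpq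
    obtain ⟨ha, -⟩ := repr_pos hb hq hpq hab
    have : NeZero a := ⟨ha.ne'⟩
    have h1 := grp_sizes hH
    rw [hk] at h1
    exact sizes_mono ha (by omega) hq (by rw [hab]; exact (mul_comm _ _).le) h1
  · exact sizes_le_two hq hq hpq (mul_comm p q)

/-- Dimension three, below `5 / 2`. -/
theorem space {p q : ℕ} (hq : 0 < q) (hpq : 2 * q ≤ p) (h5 : 2 * p < 5 * q) :
    IsGreatest (GrpSizes 3 p q) 8 := by
  constructor
  · exact grpSizes_mono one_pos le_rfl hq (by omega) (two_pow_mem 3)
  · rintro k ⟨a, b, hb, hab, H, rfl, hH⟩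
    obtain ⟨ha, -⟩ := repr_pos hb hq hpq hab
    have : NeZero a := ⟨ha.ne'⟩
    have hle : ∀ k ∈ Sizes 3 a b, k ≤ 9 := by
      refine chain hb hq hpq hab (A := 4) (chain hb hq hpq hab (A := 2)
        (chain hb hq hpq hab sizes_zero (B := 2) fun k hk => ?_) fun k hk => ?_) fun k hk => ?_
      · by_contra hcon
        push Not at hcon
        have : 3 * q ≤ k * q := Nat.mul_le_mul_right q hcon
        omega
      · by_contra hcon
        push Not at hcon
        have : 5 * q ≤ k * q := Nat.mul_le_mul_right q hcon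
        omega
      · by_contra hcon
        push Not at hcon
        have : 10 * q ≤ k * q := Nat.mul_le_mul_right q hcon
        omega
    have h9 := hle _ (grp_sizes hH)
    have hne : Nat.card H ≠ 9 := by
      intro h0
      have := prime_bound hb hq hpq hab hH (l := 3) (by norm_num) (by norm_num)
        (by rw [h0]; norm_num)
      have h1 : 3 * (p - 2 * q) / p = 0 := Nat.div_eq_of_lt (by omega)
      rw [h1] at this
      omega
    omega

/-- Dimension four, below `17 / 7`. -/
theorem four {p q : ℕ} (hq : 0 < q) (hpq : 2 * q ≤ p) (h7 : 7 * p < 17 * q) :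
    IsGreatest (GrpSizes 4 p q) 16 := by
  constructor
  · exact grpSizes_mono one_pos le_rfl hq (by omega) (two_pow_mem 4)
  · rintro k ⟨a, b, hb, hab, H, rfl, hH⟩
    obtain ⟨ha, -⟩ := repr_pos hb hq hpq hab
    have : NeZero a := ⟨ha.ne'⟩
    have hle : ∀ k ∈ Sizes 4 a b, k ≤ 21 := by
      refine chain hb hq hpq hab (A := 9) (chain hb hq hpq hab (A := 4)
        (chain hb hq hpq hab (A := 2)
        (chain hb hq hpq hab sizes_zero (B := 2) fun k hk => ?_) fun k hk => ?_) fun k hk => ?_)
        fun k hk => ?_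
      · by_contra hcon
        push Not at hcon
        have : 3 * q ≤ k * q := Nat.mul_le_mul_right q hcon
        omega
      · by_contra hcon
        push Not at hcon
        have : 5 * q ≤ k * q := Nat.mul_le_mul_right q hcon
        omega
      · by_contra hcon
        push Not at hcon
        have : 10 * q ≤ k * q := Nat.mul_le_mul_right q hcon
        omega
      · by_contra hcon
        push Not at hcon
        have : 22 * q ≤ k * q := Nat.mul_le_mul_right q hcon
        omega
    have h21 := hle _ (grp_sizes hH)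
    have hp : 0 < p := by omega
    have pb := fun (l : ℕ) (hl : l.Prime) (hl2 : l % 2 = 1) (hd : l ∣ Nat.card H) =>
      prime_bound hb hq hpq hab hH hl hl2 hd
    have h3 : ¬ 3 ∣ Nat.card H := by
      intro hd
      have := pb 3 (by norm_num) (by norm_num) hd
      have h1 : 3 * (p - 2 * q) / p = 0 := Nat.div_eq_of_lt (by omega)
      rw [h1] at this
      omega
    have h5 : ¬ 5 ∣ Nat.card H := by
      intro hd
      have := pb 5 (by norm_num) (by norm_num) hd
      have h1 : 5 * (p - 2 * q) / p = 0 := Nat.div_eq_of_lt (by omega)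
      rw [h1] at this
      omega
    have h17 : ¬ 17 ∣ Nat.card H := by
      intro hd
      have := pb 17 (by norm_num) (by norm_num) hd
      have h1 : 17 * (p - 2 * q) / p < 3 := (Nat.div_lt_iff_lt_mul hp).2 (by omega)
      omega
    have h19 : ¬ 19 ∣ Nat.card H := by
      intro hd
      have := pb 19 (by norm_num) (by norm_num) hd
      have h1 : 19 * (p - 2 * q) / p < 4 := (Nat.div_lt_iff_lt_mul hp).2 (by omega)
      omega
    by_contra hcon
    push Not at hcon
    generalize Nat.card H = c at *
    interval_cases c <;> omega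

/-- Seventeen points in the fourth power of the complement of the heptagon, as a list. -/
def seventeenL : List (List ℕ) :=
  [[0, 0, 0, 0], [3, 5, 1, 1], [6, 4, 2, 1], [6, 1, 3, 2], [5, 1, 6, 3], [2, 6, 1, 4],
    [1, 6, 4, 5], [1, 3, 5, 6], [4, 2, 6, 6], [3, 2, 2, 1], [2, 6, 4, 2], [6, 4, 5, 2],
    [2, 2, 6, 3], [5, 5, 1, 4], [1, 3, 2, 5], [5, 1, 3, 5], [4, 5, 5, 6]]

theorem seventeenL_sep : ∀ u < 17, ∀ v < 17, u ≠ v → ∃ i < 4,
    ((seventeenL.getD u []).getD i 0 + 7 - (seventeenL.getD v []).getD i 0) % 7 = 3 ∨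
    ((seventeenL.getD u []).getD i 0 + 7 - (seventeenL.getD v []).getD i 0) % 7 = 4 := by
  decide +kernel

theorem seventeenL_lt : ∀ u < 17, ∀ i < 4, (seventeenL.getD u []).getD i 0 < 7 := by
  decide +kernel

theorem val34 : ∀ z : ZMod 7, (z.val = 3 ∨ z.val = 4) → 3 ≤ z.val ∧ 3 ≤ (-z).val := by
  decide

theorem seventeen_mem : 17 ∈ Sizes 4 7 3 := by
  let g : Fin 17 → (Fin 4 → ZMod 7) :=
    fun u i => (((seventeenL.getD u.val []).getD i.val 0 : ℕ) : ZMod 7)
  have key : ∀ u v : Fin 17, u ≠ v → ∃ i : Fin 4, 3 ≤ (g u i - g v i).val ∧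
      3 ≤ (g v i - g u i).val := by
    intro u v huv
    obtain ⟨i, hi, h⟩ := seventeenL_sep u.val u.2 v.val v.2 (fun h => huv (Fin.ext h))
    refine ⟨⟨i, hi⟩, ?_⟩
    have hlt := seventeenL_lt v.val v.2 i hi
    have e : g u ⟨i, hi⟩ - g v ⟨i, hi⟩ =
        (((seventeenL.getD u.val []).getD i 0 + 7 - (seventeenL.getD v.val []).getD i 0 : ℕ) :
          ZMod 7) := by
      show (((seventeenL.getD u.val []).getD i 0 : ℕ) : ZMod 7) -
        (((seventeenL.getD v.val []).getD i 0 : ℕ) : ZMod 7) = _
      rw [Nat.cast_sub (by omega), Nat.cast_add]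
      have h7 : ((7 : ℕ) : ZMod 7) = 0 := ZMod.natCast_self 7
      rw [h7, add_zero]
    have hval : (g u ⟨i, hi⟩ - g v ⟨i, hi⟩).val = 3 ∨ (g u ⟨i, hi⟩ - g v ⟨i, hi⟩).val = 4 := by
      rw [e, ZMod.val_natCast]
      exact h
    have h2 := val34 _ hval
    rw [neg_sub] at h2
    exact h2
  have hinj : Function.Injective g := by
    intro u v huv
    by_contra hne
    obtain ⟨i, h1, -⟩ := key u v hne
    rw [huv, sub_self, ZMod.val_zero] at h1
    omega
  refine ⟨univ.image g, ?_, ?_⟩
  · rw [card_image_of_injective _ hinj, card_univ, Fintype.card_fin]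
  · intro x hx y hy hxy
    rw [mem_image] at hx hy
    obtain ⟨u, -, rfl⟩ := hx
    obtain ⟨v, -, rfl⟩ := hy
    exact key u v (fun h => hxy (by rw [h]))

theorem seventeen_le {p q : ℕ} (hq : 0 < q) (h : 7 * q ≤ 3 * p) : 17 ∈ Sizes 4 p q :=
  sizes_mono (by norm_num) (by omega) hq (by omega) seventeen_mem

end Pool.Agent.Hhelper30.FracLow
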