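import Pool.Agent.Hhelper30.FracLow.Orb

/-!
# Subgroup codes restricted to few coordinates

If `|S| (p - 2 q) < q`, the elements of a subgroup code of `E_{a/b}` (`a / b = p / q`) which are
supported on the set `S` of coordinates form a group whose order divides `2 ^ |S|`.
-/

namespace Pool.Agent.Hhelper30.FracLow

open Finset

variable {n a b p q : ℕ}

/-- The elements of `H` supported on `S`. -/
def part (H : AddSubgroup (Fin n → ZMod a)) (S : Finset (Fin n)) :
    AddSubgroup (Fin n → ZMod a) where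
  carrier := {x | x ∈ H ∧ ∀ i, i ∉ S → x i = 0}
  add_mem' := by
    rintro x y ⟨h1, h2⟩ ⟨h3, h4⟩
    refine ⟨H.add_mem h1 h3, fun i hi => ?_⟩
    rw [Pi.add_apply, h2 i hi, h4 i hi, add_zero]
  zero_mem' := ⟨H.zero_mem, fun i _ => rfl⟩
  neg_mem' := by
    rintro x ⟨h1, h2⟩
    refine ⟨H.neg_mem h1, fun i hi => ?_⟩
    rw [Pi.neg_apply, h2 i hi, neg_zero]

theorem mem_part {H : AddSubgroup (Fin n → ZMod a)} {S : Finset (Fin n)} {x : Fin n → ZMod a} :
    x ∈ part H S ↔ x ∈ H ∧ ∀ i, i ∉ S → x i = 0 := Iff.rfl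

/-- A subgroup code: every nonzero element has a covered coordinate. -/
def IsCode (b : ℕ) (H : AddSubgroup (Fin n → ZMod a)) : Prop :=
  ∀ x ∈ H, x ≠ 0 → ∃ i, b ≤ (x i).val ∧ b ≤ (-x i).val

theorem exists_cov (hb : 0 < b) {H : AddSubgroup (Fin n → ZMod a)} {S : Finset (Fin n)}
    (hH : IsCode b H) {x : Fin n → ZMod a} (hx : x ∈ part H S) (k : ℕ) (hk : k • x ≠ 0) :
    ∃ i ∈ S, b ≤ (k • x i).val ∧ b ≤ (-(k • x i)).val := by
  have h1 : k • x ∈ part H S := (part H S).nsmul_mem hx k
  obtain ⟨i, hi1, hi2⟩ := hH _ h1.1 hk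
  refine ⟨i, ?_, ?_, ?_⟩
  · by_contra hi
    have h2 := h1.2 i hi
    rw [h2, ZMod.val_zero] at hi1
    omega
  · simpa using hi1
  · simpa using hi2

/-- There is no nonzero element of odd order with small support. -/
theorem no_odd [NeZero a] (hb : 0 < b) (hq : 0 < q) (hpq : 2 * q ≤ p) (h : a * q = b * p)
    {H : AddSubgroup (Fin n → ZMod a)} {S : Finset (Fin n)} (hH : IsCode b H)
    (hS : S.card * (p - 2 * q) < q) {x : Fin n → ZMod a} (hx : x ∈ part H S) {m : ℕ}
    (hm : m % 2 = 1) (h1 : 1 < m) (hmx : m • x = 0) (hk : ∀ k, 0 < k → k < m → k • x ≠ 0) :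
    False := by
  have hp : 0 < p := by omega
  have hsub : (range m).erase 0 ⊆
      S.biUnion fun i => (range m).filter fun k => b ≤ (k • x i).val ∧ b ≤ (-(k • x i)).val := by
    intro k hk'
    rw [mem_erase, mem_range] at hk'
    obtain ⟨i, hi, h2⟩ := exists_cov hb hH hx k (hk k (by omega) hk'.2)
    rw [mem_biUnion]
    exact ⟨i, hi, mem_filter.2 ⟨mem_range.2 hk'.2, h2⟩⟩
  have hcard : m - 1 ≤ ∑ i ∈ S,
      ((range m).filter fun k => b ≤ (k • x i).val ∧ b ≤ (-(k • x i)).val).card := by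
    calc m - 1 = ((range m).erase 0).card := by
          rw [card_erase_of_mem (mem_range.2 (by omega)), card_range]
      _ ≤ _ := card_le_card hsub
      _ ≤ _ := card_biUnion_le
  have hi0 : ∀ i, m • x i = 0 := fun i => by
    have := congrFun hmx i
    simpa using this
  rcases Nat.lt_or_ge (m * (p - 2 * q)) p with hlt | hge
  · rw [sum_eq_zero fun i _ => (orb_odd hb hp hpq h hm (hi0 i)).2 hlt] at hcard
    omega
  · have h3 : (m - 1) * p ≤ S.card * (2 * (m * (p - 2 * q))) := by
      calc (m - 1) * p ≤ (∑ i ∈ S,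
            ((range m).filter fun k => b ≤ (k • x i).val ∧ b ≤ (-(k • x i)).val).card) * p :=
            Nat.mul_le_mul_right p hcard
        _ = ∑ i ∈ S,
            ((range m).filter fun k => b ≤ (k • x i).val ∧ b ≤ (-(k • x i)).val).card * p :=
            sum_mul _ _ _
        _ ≤ ∑ i ∈ S, 2 * (m * (p - 2 * q)) :=
            sum_le_sum fun i _ => (orb_odd hb hp hpq h hm (hi0 i)).1
        _ = S.card * (2 * (m * (p - 2 * q))) := by rw [sum_const, smul_eq_mul]
    have h4 : S.card * (2 * (m * (p - 2 * q))) = 2 * m * (S.card * (p - 2 * q)) := by ring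
    have h5 : 2 * m * (S.card * (p - 2 * q)) ≤ 2 * m * (q - 1) :=
      Nat.mul_le_mul_left _ (by omega)
    have h6 : 2 * m * (q - 1) + 2 * m = 2 * m * q := by
      obtain ⟨q', rfl⟩ := Nat.exists_eq_succ_of_ne_zero hq.ne'
      simp only [Nat.succ_eq_add_one, Nat.add_sub_cancel]
      ring
    have h7 : m * (p - 2 * q) + 2 * m * q = m * p := by
      obtain ⟨e, rfl⟩ := Nat.exists_eq_add_of_le hpq
      rw [Nat.add_sub_cancel_left]
      ring
    have h8 : (m - 1) * p + p = m * p := by
      obtain ⟨m', rfl⟩ := Nat.exists_eq_succ_of_ne_zero (by omega : m ≠ 0)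
      simp only [Nat.succ_eq_add_one, Nat.add_sub_cancel]
      ring
    omega

/-- A nonzero element of 2-power order with small support has an exact half coordinate. -/
theorem exists_half [NeZero a] (hb : 0 < b) (_hq : 0 < q) (hpq : 2 * q ≤ p) (h : a * q = b * p)
    {H : AddSubgroup (Fin n → ZMod a)} {S : Finset (Fin n)} (hH : IsCode b H)
    (hS : S.card * (p - 2 * q) < q) {x : Fin n → ZMod a} (hx : x ∈ part H S) (hx0 : x ≠ 0)
    {s : ℕ} (hs : (2 ^ s) • x = 0) : ∃ i, x i ≠ 0 ∧ 2 • x i = 0 := by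
  by_contra hcon
  push Not at hcon
  have hp : 0 < p := by omega
  obtain ⟨r, rfl⟩ : ∃ r, s = r + 1 := by
    rcases Nat.eq_zero_or_pos s with h0 | h0
    · rw [h0, pow_zero, one_smul] at hs
      exact (hx0 hs).elim
    · exact ⟨s - 1, by omega⟩
  have hsub : (range (2 ^ (r + 1))).filter (fun k => k % 2 = 1) ⊆
      S.biUnion fun i => (range (2 ^ (r + 1))).filter fun k =>
        k % 2 = 1 ∧ (b ≤ (k • x i).val ∧ b ≤ (-(k • x i)).val) := by
    intro k hk'
    rw [mem_filter, mem_range] at hk'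
    have hk : k • x ≠ 0 := by
      intro h0
      apply hx0
      have hc : Nat.Coprime k (2 ^ (r + 1)) := by
        refine Nat.Coprime.pow_right _ ?_
        exact Nat.coprime_two_right.2 (Nat.odd_iff.2 hk'.2)
      have h2 : addOrderOf x ∣ Nat.gcd k (2 ^ (r + 1)) :=
        Nat.dvd_gcd (addOrderOf_dvd_of_nsmul_eq_zero h0) (addOrderOf_dvd_of_nsmul_eq_zero hs)
      rw [Nat.Coprime.gcd_eq_one hc, Nat.dvd_one] at h2
      exact AddMonoid.addOrderOf_eq_one_iff.1 h2
    obtain ⟨i, hi, h2⟩ := exists_cov hb hH hx k hk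
    rw [mem_biUnion]
    exact ⟨i, hi, mem_filter.2 ⟨mem_range.2 hk'.1, hk'.2, h2⟩⟩
  have hodd : ((range (2 ^ (r + 1))).filter (fun k => k % 2 = 1)).card = 2 ^ r := by
    have := card_cls (r := 2) (by norm_num) (2 ^ r) 1
    rw [pow_succ, mul_comm]
    exact this
  have hi0 : ∀ i, (2 ^ (r + 1)) • x i = 0 := fun i => by
    have := congrFun hs i
    simpa using this
  have h3 : 2 ^ r * p ≤ S.card * (2 ^ (r + 1) * (p - 2 * q)) := by
    calc 2 ^ r * p ≤ (∑ i ∈ S, ((range (2 ^ (r + 1))).filter fun k =>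
          k % 2 = 1 ∧ (b ≤ (k • x i).val ∧ b ≤ (-(k • x i)).val)).card) * p := by
          refine Nat.mul_le_mul_right p ?_
          rw [← hodd]
          exact (card_le_card hsub).trans card_biUnion_le
      _ = ∑ i ∈ S, ((range (2 ^ (r + 1))).filter fun k =>
          k % 2 = 1 ∧ (b ≤ (k • x i).val ∧ b ≤ (-(k • x i)).val)).card * p := sum_mul _ _ _
      _ ≤ ∑ i ∈ S, 2 ^ (r + 1) * (p - 2 * q) :=
          sum_le_sum fun i _ => orb_two hb hp hpq h (hi0 i) (hcon i)
      _ = S.card * (2 ^ (r + 1) * (p - 2 * q)) := by rw [sum_const, smul_eq_mul]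
  have h4 : S.card * (2 ^ (r + 1) * (p - 2 * q)) = 2 ^ r * (2 * (S.card * (p - 2 * q))) := by
    ring
  rw [h4] at h3
  have h5 := Nat.le_of_mul_le_mul_left h3 (by positivity)
  omega

theorem half_ne [NeZero a] {x y : ZMod a} (hxy : x ≠ y) (h2 : 2 • (x - y) = 0) :
    ¬ ((2 * x.val < a) ↔ (2 * y.val < a)) := by
  have hx := ZMod.val_lt x
  have hy := ZMod.val_lt y
  have hne : x.val ≠ y.val := fun h => hxy (ZMod.val_injective a h)
  have h1 : ((2 * x.val : ℕ) : ZMod a) = ((2 * y.val : ℕ) : ZMod a) := by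
    push_cast
    rw [ZMod.natCast_zmod_val, ZMod.natCast_zmod_val]
    have : (2 : ZMod a) * (x - y) = 0 := by
      rw [← h2, nsmul_eq_mul]
      norm_num
    linear_combination this
  rw [ZMod.natCast_eq_natCast_iff] at h1
  rcases Nat.lt_or_gt_of_ne hne with hlt | hlt
  · have h3 : a ∣ 2 * y.val - 2 * x.val := (Nat.modEq_iff_dvd' (by omega)).1 h1
    have h4 := Nat.le_of_dvd (by omega) h3
    omega
  · have h3 : a ∣ 2 * x.val - 2 * y.val := (Nat.modEq_iff_dvd' (by omega)).1 h1.symm
    have h4 := Nat.le_of_dvd (by omega) h3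
    omega

/-- **Small supports.** -/
theorem card_part_dvd [NeZero a] (hb : 0 < b) (hq : 0 < q) (hpq : 2 * q ≤ p)
    (h : a * q = b * p) {H : AddSubgroup (Fin n → ZMod a)} {S : Finset (Fin n)}
    (hH : IsCode b H) (hS : S.card * (p - 2 * q) < q) :
    Nat.card (part H S) ∣ 2 ^ S.card := by
  have hprime : ∀ {d : ℕ}, Nat.Prime d → d ∣ Nat.card (part H S) → d = 2 := by
    intro d hd hdvd
    by_contra hd2
    have hodd : d % 2 = 1 := by
      rcases hd.eq_two_or_odd with h0 | h0
      · exact (hd2 h0).elim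
      · exact h0
    have : Fact d.Prime := ⟨hd⟩
    obtain ⟨x, hx⟩ := exists_prime_addOrderOf_dvd_card' d hdvd
    refine no_odd hb hq hpq h hH hS x.2 hodd hd.one_lt ?_ ?_
    · have := addOrderOf_nsmul_eq_zero x
      rw [hx] at this
      exact congrArg Subtype.val this
    · intro k hk0 hk hkx
      have h1 : k • x = 0 := Subtype.ext hkx
      have h2 := addOrderOf_dvd_of_nsmul_eq_zero h1
      rw [hx] at h2
      exact absurd (Nat.le_of_dvd hk0 h2) (by omega)
  obtain ⟨e, he⟩ : ∃ e, Nat.card (part H S) = 2 ^ e :=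
    ⟨_, Nat.eq_prime_pow_of_unique_prime_dvd Nat.card_pos.ne' hprime⟩
  have hle : Nat.card (part H S) ≤ 2 ^ S.card := by
    have hinj : Function.Injective
        (fun (x : part H S) (i : S) => decide (2 * ((x : Fin n → ZMod a) i).val < a)) := by
      intro x y hxy
      by_contra hne
      have hz : (x - y : part H S) ≠ 0 := sub_ne_zero.2 hne
      have hz' : ((x - y : part H S) : Fin n → ZMod a) ≠ 0 := fun h0 => hz (Subtype.ext h0)
      have h2 : (2 ^ e) • ((x - y : part H S) : Fin n → ZMod a) = 0 := by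
        have := card_nsmul_eq_zero' (x := (x - y : part H S))
        rw [he] at this
        exact congrArg Subtype.val this
      obtain ⟨i, hi1, hi2⟩ := exists_half hb hq hpq h hH hS (x - y).2 hz' h2
      have hiS : i ∈ S := by
        by_contra hi
        exact hi1 ((x - y).2.2 i hi)
      have h3 : (x : Fin n → ZMod a) i ≠ (y : Fin n → ZMod a) i := by
        intro h0
        apply hi1
        show (x : Fin n → ZMod a) i - (y : Fin n → ZMod a) i = 0
        rw [h0, sub_self]
      have h4 := half_ne h3 hi2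
      apply h4
      have h5 := congrFun hxy ⟨i, hiS⟩
      simpa using h5
    have h6 := Nat.card_le_card_of_injective _ hinj
    have h7 : Nat.card (S → Bool) = 2 ^ S.card := by
      rw [Nat.card_eq_fintype_card, Fintype.card_fun, Fintype.card_bool, Fintype.card_coe]
    rw [h7] at h6
    exact h6
  rw [he] at hle ⊢
  exact pow_dvd_pow 2 ((Nat.pow_le_pow_iff_right (by norm_num)).1 hle)

/-- An odd prime dividing the order of a subgroup code in dimension `n`. -/
theorem prime_bound [NeZero a] (hb : 0 < b) (hq : 0 < q) (hpq : 2 * q ≤ p)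
    (h : a * q = b * p) {H : AddSubgroup (Fin n → ZMod a)} (hH : IsCode b H) {l : ℕ}
    (hl : l.Prime) (hl2 : l % 2 = 1) (hdvd : l ∣ Nat.card H) :
    l - 1 ≤ n * (2 * ((l * (p - 2 * q) / p + 1) / 2)) := by
  have : Fact l.Prime := ⟨hl⟩
  obtain ⟨x, hx⟩ := exists_prime_addOrderOf_dvd_card' l hdvd
  have hxp : (x : Fin n → ZMod a) ∈ part H univ :=
    ⟨x.2, fun i hi => (hi (mem_univ i)).elim⟩
  have hlx : l • (x : Fin n → ZMod a) = 0 := by
    have := addOrderOf_nsmul_eq_zero x
    rw [hx] at this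
    exact congrArg Subtype.val this
  have hsub : (range l).erase 0 ⊆
      univ.biUnion fun i => (range l).filter fun k =>
        b ≤ (k • (x : Fin n → ZMod a) i).val ∧ b ≤ (-(k • (x : Fin n → ZMod a) i)).val := by
    intro k hk'
    rw [mem_erase, mem_range] at hk'
    have hk : k • (x : Fin n → ZMod a) ≠ 0 := by
      intro hkx
      have h1 : k • x = 0 := Subtype.ext hkx
      have h2 := addOrderOf_dvd_of_nsmul_eq_zero h1
      rw [hx] at h2
      exact absurd (Nat.le_of_dvd (by omega) h2) (by omega)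
    obtain ⟨i, hi, h2⟩ := exists_cov hb hH hxp k hk
    rw [mem_biUnion]
    exact ⟨i, hi, mem_filter.2 ⟨mem_range.2 hk'.2, h2⟩⟩
  calc l - 1 = ((range l).erase 0).card := by
        rw [card_erase_of_mem (mem_range.2 hl.pos), card_range]
    _ ≤ _ := card_le_card hsub
    _ ≤ _ := card_biUnion_le
    _ ≤ ∑ i : Fin n, 2 * ((l * (p - 2 * q) / p + 1) / 2) := by
        refine sum_le_sum fun i _ => orb_prime hb hq hpq h hl hl2 ?_
        have := congrFun hlx i
        simpa using this
    _ = n * (2 * ((l * (p - 2 * q) / p + 1) / 2)) := by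
        rw [sum_const, card_univ, Fintype.card_fin, smul_eq_mul]

end Pool.Agent.Hhelper30.FracLow
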