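import Pool.Agent.Hhelper30.FracLow.Count

/-!
# Multiples of one element of `ZMod a`
-/

namespace Pool.Agent.Hhelper30.FracLow

open Finset

/-- The multiples of an element of `ZMod a`. -/
theorem exists_repr {a : ℕ} [NeZero a] (y : ZMod a) :
    ∃ g M v : ℕ, 0 < g ∧ 0 < M ∧ a = g * M ∧ Nat.Coprime v M ∧
      ∀ k : ℕ, (k • y).val = g * ((k * v) % M) := by
  have ha : 0 < a := Nat.pos_of_ne_zero (NeZero.ne a)
  set g := Nat.gcd y.val a with hg
  have hg0 : 0 < g := Nat.gcd_pos_of_pos_right _ ha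
  obtain ⟨M, hM⟩ : g ∣ a := Nat.gcd_dvd_right _ _
  obtain ⟨v, hv⟩ : g ∣ y.val := Nat.gcd_dvd_left _ _
  have hM0 : 0 < M := by
    rcases Nat.eq_zero_or_pos M with h | h
    · rw [h, mul_zero] at hM
      omega
    · exact h
  refine ⟨g, M, v, hg0, hM0, hM, ?_, fun k => ?_⟩
  · have h1 : Nat.gcd (g * v) (g * M) = g := by
      rw [← hv, ← hM]
    rw [Nat.gcd_mul_left] at h1
    exact Nat.eq_of_mul_eq_mul_left hg0 (by rw [h1, mul_one])
  · have h1 : k • y = ((k * y.val : ℕ) : ZMod a) := by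
      push_cast
      rw [ZMod.natCast_zmod_val, nsmul_eq_mul]
    rw [h1, ZMod.val_natCast, hv]
    have h2 : k * (g * v) = g * (k * v) := by ring
    rw [h2]
    conv_lhs => rw [hM]
    exact Nat.mul_mod_mul_left g (k * v) M

theorem dvd_of_repr {a g M v : ℕ} [NeZero a] {y : ZMod a} (hg : 0 < g)
    (hv : Nat.Coprime v M) (h : ∀ k : ℕ, (k • y).val = g * ((k * v) % M)) {m : ℕ}
    (hm : m • y = 0) : M ∣ m := by
  have h1 := h m
  rw [hm, ZMod.val_zero] at h1
  have h2 : (m * v) % M = 0 := by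
    rcases Nat.mul_eq_zero.1 h1.symm with h3 | h3
    · omega
    · exact h3
  exact (Nat.Coprime.dvd_of_dvd_mul_right hv.symm (Nat.dvd_of_mod_eq_zero h2))

theorem cov_iff {a b : ℕ} [NeZero a] (hb : 0 < b) (y : ZMod a) :
    (b ≤ y.val ∧ b ≤ (-y).val) ↔ (b ≤ y.val ∧ y.val + b ≤ a) := by
  have hlt := ZMod.val_lt y
  rcases eq_or_ne y 0 with rfl | hy
  · simp only [ZMod.val_zero, neg_zero]
    omega
  · have : NeZero y := ⟨hy⟩
    rw [ZMod.val_neg_of_ne_zero]
    constructor
    · rintro ⟨h1, h2⟩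
      exact ⟨h1, by omega⟩
    · rintro ⟨h1, h2⟩
      exact ⟨h1, by omega⟩

/-- The bounds given by a covered coordinate. -/
theorem bounds {a b p q g M j : ℕ} (hpq : 2 * q ≤ p) (h : a * q = b * p) (hg : 0 < g)
    (ha : a = g * M) (h1 : b ≤ g * j) (h2 : g * j + b ≤ a) :
    2 * j * p ≤ M * p + M * (p - 2 * q) ∧ M * p ≤ 2 * j * p + M * (p - 2 * q) := by
  have e1 : g * (M * q) = b * p := by
    rw [← h, ha]
    ring
  have k1 : M * q ≤ j * p := by
    have : g * (M * q) ≤ g * (j * p) := by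
      rw [e1]
      calc b * p ≤ g * j * p := Nat.mul_le_mul_right p h1
        _ = g * (j * p) := by ring
    exact Nat.le_of_mul_le_mul_left this hg
  have k2 : j * p + M * q ≤ M * p := by
    have : g * (j * p + M * q) ≤ g * (M * p) := by
      rw [mul_add, e1]
      calc g * (j * p) + b * p = (g * j + b) * p := by ring
        _ ≤ a * p := Nat.mul_le_mul_right p h2
        _ = g * (M * p) := by rw [ha]; ring
    exact Nat.le_of_mul_le_mul_left this hg
  have e2 : M * (p - 2 * q) = M * p - 2 * (M * q) := by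
    rw [Nat.mul_sub]
    congr 1
    ring
  have e3 : 2 * (M * q) ≤ M * p := by
    calc 2 * (M * q) = M * (2 * q) := by ring
      _ ≤ M * p := Nat.mul_le_mul_left M hpq
  have e4 : 2 * j * p = 2 * (j * p) := by ring
  rw [e2, e4]
  omega

/-- Odd multiplicity: the number of covered multiples. -/
theorem orb_odd {a b p q m : ℕ} [NeZero a] (hb : 0 < b) (hp : 0 < p) (hpq : 2 * q ≤ p)
    (h : a * q = b * p) (hm : m % 2 = 1) {y : ZMod a} (hy : m • y = 0) :
    ((range m).filter fun k => b ≤ (k • y).val ∧ b ≤ (-(k • y)).val).card * p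
      ≤ 2 * (m * (p - 2 * q)) ∧
    (m * (p - 2 * q) < p →
      ((range m).filter fun k => b ≤ (k • y).val ∧ b ≤ (-(k • y)).val).card = 0) := by
  obtain ⟨g, M, v, hg, hM, ha, hv, hk⟩ := exists_repr y
  obtain ⟨d, rfl⟩ := dvd_of_repr hg hv hk hy
  have hMo : M % 2 = 1 := by
    rcases Nat.mod_two_eq_zero_or_one M with h0 | h0
    · rw [Nat.mul_mod, h0, zero_mul, Nat.zero_mod] at hm
      omega
    · exact h0
  have e : ((range (M * d)).filter fun k => b ≤ (k • y).val ∧ b ≤ (-(k • y)).val).card =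
      d * ((range M).filter fun j => b ≤ g * j ∧ g * j + b ≤ a).card := by
    rw [← card_pred hM d v hv (fun j => b ≤ g * j ∧ g * j + b ≤ a)]
    congr 1
    ext k
    simp only [mem_filter, mem_range]
    rw [cov_iff hb, hk k]
  rw [e]
  have hc := card_odd (M := M) (p := p) (A := M * (p - 2 * q)) hp hMo
    (fun j => b ≤ g * j ∧ g * j + b ≤ a) (fun j hj => bounds hpq h hg ha hj.1 hj.2)
  constructor
  · calc d * ((range M).filter fun j => b ≤ g * j ∧ g * j + b ≤ a).card * p
        ≤ d * (2 * (M * (p - 2 * q) / p)) * p := by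
          refine Nat.mul_le_mul_right p (Nat.mul_le_mul_left d (hc.trans ?_))
          omega
      _ = 2 * d * (M * (p - 2 * q) / p * p) := by ring
      _ ≤ 2 * d * (M * (p - 2 * q)) := Nat.mul_le_mul_left _ (Nat.div_mul_le_self _ _)
      _ = 2 * (M * d * (p - 2 * q)) := by ring
  · intro hlt
    have hd : 0 < d := by
      rcases Nat.eq_zero_or_pos d with h0 | h0
      · rw [h0, mul_zero] at hm
        omega
      · exact h0
    have h1 : M * (p - 2 * q) < p := by
      refine lt_of_le_of_lt ?_ hlt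
      exact Nat.mul_le_mul_right _ (Nat.le_mul_of_pos_right M hd)
    rw [Nat.div_eq_of_lt h1] at hc
    rw [Nat.le_zero.1 hc, mul_zero]

/-- Odd prime order: the number of covered multiples. -/
theorem orb_prime {a b p q l : ℕ} [NeZero a] (hb : 0 < b) (hq : 0 < q) (hpq : 2 * q ≤ p)
    (h : a * q = b * p) (hl : l.Prime) (hm : l % 2 = 1) {y : ZMod a} (hy : l • y = 0) :
    ((range l).filter fun k => b ≤ (k • y).val ∧ b ≤ (-(k • y)).val).card
      ≤ 2 * ((l * (p - 2 * q) / p + 1) / 2) := by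
  have hp : 0 < p := by omega
  obtain ⟨g, M, v, hg, hM, ha, hv, hk⟩ := exists_repr y
  have hMl := dvd_of_repr hg hv hk hy
  rcases (Nat.dvd_prime hl).1 hMl with rfl | rfl
  · rw [filter_false_of_mem, card_empty]
    · exact Nat.zero_le _
    · rintro k - ⟨h1, -⟩
      rw [hk k, Nat.mod_one, mul_zero] at h1
      omega
  · have e : ((range M).filter fun k => b ≤ (k • y).val ∧ b ≤ (-(k • y)).val).card =
        1 * ((range M).filter fun j => b ≤ g * j ∧ g * j + b ≤ a).card := by
      rw [← card_pred hM 1 v hv (fun j => b ≤ g * j ∧ g * j + b ≤ a), mul_one]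
      congr 1
      ext k
      simp only [mem_filter, mem_range]
      rw [cov_iff hb, hk k]
    rw [e, one_mul]
    exact card_odd (M := M) (p := p) (A := M * (p - 2 * q)) hp hm
      (fun j => b ≤ g * j ∧ g * j + b ≤ a) (fun j hj => bounds hpq h hg ha hj.1 hj.2)

/-- Order a power of two: the number of covered odd multiples, no exact half. -/
theorem orb_two {a b p q s : ℕ} [NeZero a] (hb : 0 < b) (hp : 0 < p) (hpq : 2 * q ≤ p)
    (h : a * q = b * p) {y : ZMod a} (hy : (2 ^ s) • y = 0) (hh : y ≠ 0 → 2 • y ≠ 0) :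
    ((range (2 ^ s)).filter fun k => k % 2 = 1 ∧ (b ≤ (k • y).val ∧ b ≤ (-(k • y)).val)).card * p
      ≤ 2 ^ s * (p - 2 * q) := by
  obtain ⟨g, M, v, hg, hM, ha, hv, hk⟩ := exists_repr y
  have hMs := dvd_of_repr hg hv hk hy
  obtain ⟨t, -, rfl⟩ := (Nat.dvd_prime_pow Nat.prime_two).1 hMs
  obtain ⟨d, hd⟩ := hMs
  rcases Nat.lt_or_ge t 2 with ht | ht
  · have hy0 : y = 0 := by
      by_contra hy0
      apply hh hy0
      have h1 := hk 2
      have h2 : (2 * v) % 2 ^ t = 0 := by
        interval_cases t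
        · exact Nat.mod_one _
        · simp
      rw [h2, mul_zero] at h1
      exact (ZMod.val_eq_zero _).1 h1
    rw [filter_false_of_mem, card_empty, zero_mul]
    · exact Nat.zero_le _
    · rintro k - ⟨-, h1, -⟩
      rw [hy0, smul_zero, ZMod.val_zero] at h1
      omega
  · have h4 : 2 ^ t % 4 = 0 := by
      obtain ⟨r, rfl⟩ := Nat.exists_eq_add_of_le ht
      rw [pow_add]
      norm_num
    have hvo : v % 2 = 1 := by
      have h2 : Nat.Coprime v 2 :=
        Nat.Coprime.coprime_dvd_right (dvd_pow_self 2 (by omega)) hv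
      exact Nat.odd_iff.1 (Nat.coprime_two_right.1 h2)
    have e : ((range (2 ^ s)).filter fun k =>
        k % 2 = 1 ∧ (b ≤ (k • y).val ∧ b ≤ (-(k • y)).val)).card =
        d * ((range (2 ^ t)).filter fun j => j % 2 = 1 ∧ (b ≤ g * j ∧ g * j + b ≤ a)).card := by
      rw [← card_pred hM d v hv (fun j => j % 2 = 1 ∧ (b ≤ g * j ∧ g * j + b ≤ a)), ← hd]
      congr 1
      ext k
      simp only [mem_filter, mem_range]
      rw [cov_iff hb, hk k]
      have h5 : (k * v) % 2 ^ t % 2 = k % 2 := by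
        rw [Nat.mod_mod_of_dvd _ (dvd_pow_self 2 (by omega)), Nat.mul_mod, hvo, mul_one,
          Nat.mod_mod]
      rw [h5]
    rw [e, mul_assoc]
    have hc := card_even (M := 2 ^ t) (p := p) (A := 2 ^ t * (p - 2 * q)) hp h4
      (fun j => j % 2 = 1 ∧ (b ≤ g * j ∧ g * j + b ≤ a))
      (fun j hj => ⟨hj.1, bounds hpq h hg ha hj.2.1 hj.2.2⟩)
    calc d * (((range (2 ^ t)).filter fun j => j % 2 = 1 ∧ (b ≤ g * j ∧ g * j + b ≤ a)).card * p)
        ≤ d * (2 ^ t * (p - 2 * q)) := Nat.mul_le_mul_left d hc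
      _ = 2 ^ s * (p - 2 * q) := by rw [hd]; ring

end Pool.Agent.Hhelper30.FracLow
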