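import Pool.Agent.Hhelper30.FracLow.Codes

/-!
# Monotonicity in `p / q` and cyclic subgroup codes
-/

namespace Pool.Agent.Hhelper30.FracLow

open Finset

/-- The homomorphism `x ↦ c x` from `ZMod a` to `ZMod (a c)`. -/
noncomputable def scale (a c : ℕ) : ZMod a →+ ZMod (a * c) :=
  ZMod.lift a ⟨zmultiplesHom (ZMod (a * c)) ((c : ℕ) : ZMod (a * c)), by
    show (a : ℤ) • ((c : ℕ) : ZMod (a * c)) = 0
    rw [zsmul_eq_mul]
    have h : (((a * c : ℕ) : ℕ) : ZMod (a * c)) = 0 := ZMod.natCast_self _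
    push_cast at h ⊢
    exact h⟩

theorem scale_natCast (a c : ℕ) (k : ℕ) :
    scale a c ((k : ℕ) : ZMod a) = ((k * c : ℕ) : ZMod (a * c)) := by
  have h := ZMod.lift_castAddHom a
    (⟨zmultiplesHom (ZMod (a * c)) ((c : ℕ) : ZMod (a * c)), by
      show (a : ℤ) • ((c : ℕ) : ZMod (a * c)) = 0
      rw [zsmul_eq_mul]
      have h : (((a * c : ℕ) : ℕ) : ZMod (a * c)) = 0 := ZMod.natCast_self _
      push_cast at h ⊢
      exact h⟩) (k : ℤ)
  have e : (Int.castAddHom (ZMod a)) (k : ℤ) = ((k : ℕ) : ZMod a) := by simp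
  rw [e] at h
  unfold scale
  rw [h]
  show (k : ℤ) • ((c : ℕ) : ZMod (a * c)) = _
  rw [zsmul_eq_mul]
  push_cast
  rfl

theorem scale_val {a c : ℕ} [NeZero a] (hc : 0 < c) (x : ZMod a) :
    (scale a c x).val = x.val * c := by
  conv_lhs => rw [← ZMod.natCast_zmod_val x, scale_natCast]
  exact ZMod.val_natCast_of_lt (Nat.mul_lt_mul_of_pos_right (ZMod.val_lt x) hc)

theorem scale_injective {a c : ℕ} [NeZero a] (hc : 0 < c) :
    Function.Injective (scale a c) := by
  intro x y h
  have h1 := congrArg ZMod.val h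
  rw [scale_val hc, scale_val hc] at h1
  exact ZMod.val_injective a (Nat.eq_of_mul_eq_mul_right hc h1)

/-- `GrpSizes n` is monotone in the fraction. -/
theorem grpSizes_mono {n p q p' q' : ℕ} (hq : 0 < q) (hpq : 2 * q ≤ p) (hq' : 0 < q')
    (h : p * q' ≤ p' * q) : GrpSizes n p q ⊆ GrpSizes n p' q' := by
  rintro k ⟨a, b, hb, hab, H, hk, hH⟩
  obtain ⟨ha, -⟩ := repr_pos hb hq hpq hab
  have hp' : 0 < p' := by
    rcases Nat.eq_zero_or_pos p' with h0 | h0
    · rw [h0, zero_mul] at h
      have : 0 < p * q' := Nat.mul_pos (by omega) hq'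
      omega
    · exact h0
  have : NeZero a := ⟨ha.ne'⟩
  have : NeZero (a * p') := ⟨(Nat.mul_pos ha hp').ne'⟩
  have hle : a * q' ≤ b * p' := by
    have h1 : a * q' * q ≤ b * p' * q := by
      calc a * q' * q = a * q * q' := by ring
        _ = b * (p * q') := by rw [hab]; ring
        _ ≤ b * (p' * q) := Nat.mul_le_mul_left b h
        _ = b * p' * q := by ring
    exact Nat.le_of_mul_le_mul_right h1 hq
  refine ⟨a * p', a * q', Nat.mul_pos ha hq', by ring,
    H.map ((scale a p').compLeft (Fin n)), ?_, ?_⟩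
  · rw [← hk]
    refine (Nat.card_congr (AddSubgroup.equivMapOfInjective H _ ?_).toEquiv).symm
    intro x y hxy
    funext i
    exact scale_injective hp' (congrFun hxy i)
  · rintro x hx hx0
    obtain ⟨y, hy, rfl⟩ := AddSubgroup.mem_map.1 hx
    have hy0 : y ≠ 0 := by
      rintro rfl
      exact hx0 (map_zero _)
    obtain ⟨i, hi⟩ := hH y hy hy0
    rw [cov_iff hb] at hi
    refine ⟨i, ?_⟩
    rw [cov_iff (Nat.mul_pos ha hq')]
    have e : ((scale a p').compLeft (Fin n) y) i = scale a p' (y i) := rfl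
    rw [e, scale_val hp']
    constructor
    · exact hle.trans (Nat.mul_le_mul_right p' hi.1)
    · calc (y i).val * p' + a * q' ≤ (y i).val * p' + b * p' := Nat.add_le_add_left hle _
        _ = ((y i).val + b) * p' := by ring
        _ ≤ a * p' := Nat.mul_le_mul_right p' hi.2

/-- Cyclic subgroup codes. -/
theorem cyclic_mem {n N b p : ℕ} [NeZero N] (hb : 0 < b) (hp : 0 < p) (w : Fin n → ℕ)
    (i0 : Fin n) (hw : w i0 = 1)
    (hcov : ∀ h : ZMod N, h ≠ 0 → ∃ i, b ≤ ((w i : ZMod N) * h).val * p ∧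
      ((w i : ZMod N) * h).val * p + b ≤ N * p) :
    ∃ H : AddSubgroup (Fin n → ZMod (N * p)), Nat.card H = N ∧
      ∀ x ∈ H, x ≠ 0 → ∃ i, b ≤ (x i).val ∧ b ≤ (-x i).val := by
  have : NeZero (N * p) := ⟨(Nat.mul_pos (Nat.pos_of_ne_zero (NeZero.ne N)) hp).ne'⟩
  let ψ : ZMod N →+ (Fin n → ZMod (N * p)) :=
    { toFun := fun h i => scale N p ((w i : ZMod N) * h)
      map_zero' := by
        funext i
        rw [mul_zero, map_zero]
        rfl
      map_add' := by
        intro x y
        funext i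
        rw [mul_add, map_add]
        rfl }
  have hψ : ∀ h i, ψ h i = scale N p ((w i : ZMod N) * h) := fun _ _ => rfl
  have hinj : Function.Injective ψ := by
    intro x y hxy
    have h1 := congrFun hxy i0
    rw [hψ, hψ, hw, Nat.cast_one, one_mul, one_mul] at h1
    exact scale_injective hp h1
  refine ⟨ψ.range, ?_, ?_⟩
  · rw [← Nat.card_congr (AddMonoidHom.ofInjective hinj).toEquiv, Nat.card_zmod]
  · rintro x ⟨h, rfl⟩ hx
    have hh : h ≠ 0 := by
      rintro rfl
      exact hx (map_zero _)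
    obtain ⟨i, hi⟩ := hcov h hh
    refine ⟨i, ?_⟩
    rw [cov_iff hb, hψ, scale_val hp]
    exact hi

/-- `2 ^ n` is a size. -/
theorem two_pow_mem (n : ℕ) : 2 ^ n ∈ GrpSizes n 2 1 := by
  refine ⟨2, 1, one_pos, rfl, ⊤, ?_, ?_⟩
  · rw [Nat.card_congr (AddSubgroup.topEquiv).toEquiv, Nat.card_eq_fintype_card, Fintype.card_fun,
      ZMod.card, Fintype.card_fin]
  · intro x _ hx
    obtain ⟨i, hi⟩ : ∃ i, x i ≠ 0 := by
      by_contra hcon
      push Not at hcon
      exact hx (funext hcon)
    refine ⟨i, ?_⟩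
    revert hi
    generalize x i = z
    revert z
    decide

/-- `Sizes n` is monotone in the fraction. -/
theorem sizes_mono {n p q p' q' : ℕ} (hp : 0 < p) (hp' : 0 < p') (h0 : 0 < q')
    (h : p * q' ≤ p' * q) : Sizes n p q ⊆ Sizes n p' q' := by
  have : NeZero p := ⟨hp.ne'⟩
  have : NeZero p' := ⟨hp'.ne'⟩
  let f : ZMod p → ZMod p' := fun x => ((x.val * p' / p : ℕ) : ZMod p')
  have hfv : ∀ x : ZMod p, (f x).val = x.val * p' / p := by
    intro x
    refine ZMod.val_natCast_of_lt ?_
    rw [Nat.div_lt_iff_lt_mul hp, mul_comm p' p]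
    exact Nat.mul_lt_mul_of_pos_right (ZMod.val_lt x) hp'
  have hq : 0 < q := by
    rcases Nat.eq_zero_or_pos q with h1 | h1
    · rw [h1, mul_zero] at h
      have : 0 < p * q' := Nat.mul_pos hp h0
      omega
    · exact h1
  have key : ∀ x y : ZMod p, y.val ≤ x.val → q ≤ (x - y).val → q ≤ (y - x).val →
      q' ≤ (f x - f y).val ∧ q' ≤ (f y - f x).val := by
    intro x y hyx h1 h2
    have e1 : (x - y).val = x.val - y.val := ZMod.val_sub hyx
    have hxy : x - y ≠ 0 := by
      intro h0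
      rw [h0, ZMod.val_zero] at h1
      omega
    have e2 : (y - x).val = p - (x.val - y.val) := by
      have : NeZero (x - y) := ⟨hxy⟩
      rw [← neg_sub, ZMod.val_neg_of_ne_zero, e1]
    rw [e1] at h1
    rw [e2] at h2
    have hx := ZMod.val_lt x
    set u := x.val with hu
    set v := y.val with hv
    -- `q' ≤ (u p') / p - (v p') / p` and `≤ p' - q'`
    have hmono : v * p' / p ≤ u * p' / p := Nat.div_le_div_right (Nat.mul_le_mul_right p' hyx)
    have e3 : (f x - f y).val = u * p' / p - v * p' / p := by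
      rw [ZMod.val_sub (by rw [hfv, hfv]; exact hmono), hfv, hfv]
    have k1 : q' + v * p' / p ≤ u * p' / p := by
      rw [Nat.le_div_iff_mul_le hp]
      calc (q' + v * p' / p) * p = p * q' + v * p' / p * p := by ring
        _ ≤ p' * q + v * p' := Nat.add_le_add h (Nat.div_mul_le_self _ _)
        _ = (q + v) * p' := by ring
        _ ≤ u * p' := Nat.mul_le_mul_right p' (by omega)
    have k2 : u * p' / p + q' ≤ p' + v * p' / p := by
      have h3 : u * p' / p * p ≤ u * p' := Nat.div_mul_le_self _ _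
      have h4 : v * p' < (v * p' / p + 1) * p := by
        rw [mul_comm _ p]
        exact Nat.lt_mul_div_succ _ hp
      have h5 : (u * p' / p + q') * p < (p' + (v * p' / p + 1)) * p := by
        calc (u * p' / p + q') * p = u * p' / p * p + p * q' := by ring
          _ ≤ u * p' + p' * q := Nat.add_le_add h3 h
          _ = (u + q) * p' := by ring
          _ ≤ (p + v) * p' := Nat.mul_le_mul_right p' (by omega)
          _ = p' * p + v * p' := by ring
          _ < p' * p + (v * p' / p + 1) * p := Nat.add_lt_add_left h4 _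
          _ = (p' + (v * p' / p + 1)) * p := by ring
      have h6 := Nat.lt_of_mul_lt_mul_right h5
      omega
    refine ⟨by rw [e3]; omega, ?_⟩
    have hne : f x - f y ≠ 0 := by
      intro h7
      rw [h7, ZMod.val_zero] at e3
      omega
    have : NeZero (f x - f y) := ⟨hne⟩
    rw [← neg_sub, ZMod.val_neg_of_ne_zero, e3]
    omega
  rintro k ⟨S, rfl, hS⟩
  refine ⟨S.image (fun x i => f (x i)), ?_, ?_⟩
  · rw [card_image_of_injOn]
    intro x hx y hy hxy
    by_contra hne
    obtain ⟨i, h1, h2⟩ := hS x hx y hy hne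
    have h3 : f (x i) = f (y i) := congrFun hxy i
    rcases le_total (y i).val (x i).val with h4 | h4
    · have h5 := (key _ _ h4 h1 h2).1
      rw [h3, sub_self, ZMod.val_zero] at h5
      omega
    · have h5 := (key _ _ h4 h2 h1).1
      rw [h3, sub_self, ZMod.val_zero] at h5
      omega
  · intro u hu v hv huv
    rw [mem_image] at hu hv
    obtain ⟨x, hx, rfl⟩ := hu
    obtain ⟨y, hy, rfl⟩ := hv
    have hne : x ≠ y := fun h => huv (by rw [h])
    obtain ⟨i, h1, h2⟩ := hS x hx y hy hne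
    refine ⟨i, ?_⟩
    rcases le_total (y i).val (x i).val with h4 | h4
    · exact key _ _ h4 h1 h2
    · exact (key _ _ h4 h2 h1).symm

end Pool.Agent.Hhelper30.FracLow
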