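import Pool.Agent.Hhelper30.FracLow.Dims

/-!
# The right side of Q1
-/

namespace Pool.Agent.Hhelper30.FracLow

open Finset

/-- The subgroup Shannon capacity of `E_{a/b}`, as in the frozen statement. -/
noncomputable def ThetaGrp (a b : ℕ) : ℝ :=
  ⨆ n : ℕ, ((sSup {k : ℕ | ∃ H : AddSubgroup (Fin (n + 1) → ZMod a), Nat.card H = k ∧
      ∀ x ∈ H, x ≠ 0 → ∃ i, b ≤ (x i).val ∧ b ≤ (-x i).val} : ℕ) : ℝ)
        ^ ((1 : ℝ) / ((n : ℝ) + 1))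

/-- The right side of Q1, as in the frozen statement. -/
noncomputable def rhs (p q : ℕ) : ℝ :=
  ⨆ (a : ℕ) (b : ℕ) (_ : 0 < b ∧ a * q = b * p), ThetaGrp a b

theorem sizes_bdd {n p q : ℕ} [NeZero p] : ∀ k ∈ Sizes n p q, k ≤ p ^ n := by
  rintro k ⟨S, rfl, -⟩
  refine (card_le_univ S).trans ?_
  rw [Fintype.card_fun, ZMod.card, Fintype.card_fin]

theorem sizes_pow {p q : ℕ} (hq : 0 < q) (hpq : q ≤ p) :
    ∀ n : ℕ, ∀ k ∈ Sizes n p q, k * q ^ n ≤ p ^ n := by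
  have : NeZero p := ⟨by omega⟩
  intro n
  induction n with
  | zero =>
    intro k hk
    rw [pow_zero, pow_zero, mul_one]
    exact sizes_zero k hk
  | succ n ih =>
    intro k hk
    have hb : BddAbove (Sizes n p q) := ⟨p ^ n, fun k hk => sizes_bdd k hk⟩
    have hne : (Sizes n p q).Nonempty := ⟨0, ∅, rfl, by simp⟩
    have h1 := window_bound hq hpq (A := sSup (Sizes n p q)) (fun k hk => le_csSup hb hk) k hk
    have h2 := ih _ (Nat.sSup_mem hne hb)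
    calc k * q ^ (n + 1) = k * q * q ^ n := by ring
      _ ≤ p * sSup (Sizes n p q) * q ^ n := Nat.mul_le_mul_right _ h1
      _ = p * (sSup (Sizes n p q) * q ^ n) := by ring
      _ ≤ p * p ^ n := Nat.mul_le_mul_left p h2
      _ = p ^ (n + 1) := by ring

theorem card_le_rpow {n a b p q : ℕ} (hb : 0 < b) (hq : 0 < q) (hpq : 2 * q ≤ p)
    (h : a * q = b * p) {H : AddSubgroup (Fin n → ZMod a)} (hH : IsCode b H) :
    (Nat.card H : ℝ) ≤ ((p : ℝ) / q) ^ n := by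
  obtain ⟨ha, h2⟩ := repr_pos hb hq hpq h
  have : NeZero a := ⟨ha.ne'⟩
  have h1 := sizes_pow hb (by omega : b ≤ a) n _ (grp_sizes hH)
  have e : (p : ℝ) / q = a / b := by
    have hq' : (q : ℝ) ≠ 0 := by exact_mod_cast hq.ne'
    have hb' : (b : ℝ) ≠ 0 := by exact_mod_cast hb.ne'
    rw [div_eq_div_iff hq' hb']
    have : (a : ℝ) * q = b * p := by exact_mod_cast h
    linarith
  rw [e, div_pow, le_div_iff₀ (by positivity)]
  exact_mod_cast h1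

theorem root_mono {k : ℕ} {x : ℝ} (hx : 0 ≤ x) {n : ℕ} (h : (k : ℝ) ≤ x ^ (n + 1)) :
    (k : ℝ) ^ ((1 : ℝ) / ((n : ℝ) + 1)) ≤ x := by
  have h1 : (x ^ (n + 1)) ^ ((1 : ℝ) / ((n : ℝ) + 1)) = x := by
    rw [← Real.rpow_natCast, ← Real.rpow_mul hx]
    push_cast
    rw [mul_one_div_cancel (by positivity), Real.rpow_one]
  calc (k : ℝ) ^ ((1 : ℝ) / ((n : ℝ) + 1)) ≤ (x ^ (n + 1)) ^ ((1 : ℝ) / ((n : ℝ) + 1)) :=
        Real.rpow_le_rpow (Nat.cast_nonneg _) h (by positivity)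
    _ = x := h1

/-- The roots of the sizes of subgroup codes. -/
def Roots (p q : ℕ) : Set ℝ :=
  {t : ℝ | ∃ n k : ℕ, k ∈ GrpSizes (n + 1) p q ∧ t = (k : ℝ) ^ ((1 : ℝ) / ((n : ℝ) + 1))}

theorem one_mem_roots {p q : ℕ} (hq : 0 < q) : (1 : ℝ) ∈ Roots p q := by
  refine ⟨0, 1, ⟨p, q, hq, mul_comm p q, ⊥, by simp, ?_⟩, by simp⟩
  intro x hx hx0
  exact (hx0 (AddSubgroup.mem_bot.1 hx)).elim

theorem thetaGrp_facts {a b p q : ℕ} (hb : 0 < b) (hq : 0 < q) (hpq : 2 * q ≤ p)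
    (h : a * q = b * p) :
    (∀ (n : ℕ) (H : AddSubgroup (Fin (n + 1) → ZMod a)), IsCode b H →
      (Nat.card H : ℝ) ^ ((1 : ℝ) / ((n : ℝ) + 1)) ≤ ThetaGrp a b) ∧
    (∀ u : ℝ, u ∈ upperBounds (Roots p q) → ThetaGrp a b ≤ u) ∧ ThetaGrp a b ≤ (p : ℝ) / q := by
  obtain ⟨ha, h2⟩ := repr_pos hb hq hpq h
  have : NeZero a := ⟨ha.ne'⟩
  set T : ℕ → Set ℕ := fun n => {k : ℕ | ∃ H : AddSubgroup (Fin (n + 1) → ZMod a),
    Nat.card H = k ∧ ∀ x ∈ H, x ≠ 0 → ∃ i, b ≤ (x i).val ∧ b ≤ (-x i).val} with hT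
  have hbd : ∀ n, BddAbove (T n) := fun n => by
    refine ⟨a ^ (n + 1), ?_⟩
    rintro k ⟨H, rfl, hH⟩
    exact sizes_bdd _ (grp_sizes (b := b) hH)
  have hne : ∀ n, (T n).Nonempty := fun n => ⟨Nat.card (⊥ : AddSubgroup (Fin (n + 1) → ZMod a)),
    ⊥, rfl, fun x hx hx0 => (hx0 (AddSubgroup.mem_bot.1 hx)).elim⟩
  have hpq0 : (0 : ℝ) ≤ (p : ℝ) / q := by positivity
  have hle : ∀ n, ((sSup (T n) : ℕ) : ℝ) ^ ((1 : ℝ) / ((n : ℝ) + 1)) ≤ (p : ℝ) / q := by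
    intro n
    obtain ⟨H, hk, hH⟩ := Nat.sSup_mem (hne n) (hbd n)
    rw [← hk]
    exact root_mono hpq0 (card_le_rpow hb hq hpq h hH)
  have hbdd : BddAbove (Set.range fun n : ℕ =>
      ((sSup (T n) : ℕ) : ℝ) ^ ((1 : ℝ) / ((n : ℝ) + 1))) := by
    refine ⟨(p : ℝ) / q, ?_⟩
    rintro _ ⟨n, rfl⟩
    exact hle n
  refine ⟨?_, ?_, ciSup_le hle⟩
  · intro n H hH
    refine le_trans ?_ (le_ciSup hbdd n)
    refine Real.rpow_le_rpow (Nat.cast_nonneg _) ?_ (by positivity)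
    exact_mod_cast le_csSup (hbd n) ⟨H, rfl, hH⟩
  · intro u hu
    refine ciSup_le fun n => ?_
    obtain ⟨H, hk, hH⟩ := Nat.sSup_mem (hne n) (hbd n)
    rw [← hk]
    exact hu ⟨n, Nat.card H, ⟨a, b, hb, h, H, rfl, hH⟩, rfl⟩

/-- The right side of Q1 is the supremum over all representations and all dimensions. -/
theorem isLUB_rhs {p q : ℕ} (hq : 0 < q) (hpq : 2 * q ≤ p) : IsLUB (Roots p q) (rhs p q) := by
  have hpq0 : (0 : ℝ) ≤ (p : ℝ) / q := by positivity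
  have h3 : ∀ a b : ℕ, (⨆ (_ : 0 < b ∧ a * q = b * p), ThetaGrp a b) ≤ (p : ℝ) / q := by
    intro a b
    refine Real.iSup_le (fun hab => ?_) hpq0
    exact (thetaGrp_facts hab.1 hq hpq hab.2).2.2
  have h2 : ∀ a : ℕ, (⨆ (b : ℕ) (_ : 0 < b ∧ a * q = b * p), ThetaGrp a b) ≤ (p : ℝ) / q :=
    fun a => Real.iSup_le (fun b => h3 a b) hpq0
  constructor
  · rintro t ⟨n, k, ⟨a, b, hb, hab, H, rfl, hH⟩, rfl⟩
    have h4 := (thetaGrp_facts hb hq hpq hab).1 n H hH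
    have e1 : (⨆ (_ : 0 < b ∧ a * q = b * p), ThetaGrp a b) = ThetaGrp a b :=
      ciSup_pos ⟨hb, hab⟩
    refine h4.trans ?_
    rw [← e1]
    refine (le_ciSup (f := fun b => ⨆ (_ : 0 < b ∧ a * q = b * p), ThetaGrp a b) ?_ b).trans ?_
    · refine ⟨(p : ℝ) / q, ?_⟩
      rintro _ ⟨b, rfl⟩
      exact h3 a b
    · refine le_ciSup (f := fun a => ⨆ (b : ℕ) (_ : 0 < b ∧ a * q = b * p), ThetaGrp a b) ?_ a
      refine ⟨(p : ℝ) / q, ?_⟩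
      rintro _ ⟨a, rfl⟩
      exact h2 a
  · intro u hu
    have hu0 : 0 ≤ u := le_trans zero_le_one (hu (one_mem_roots hq))
    refine Real.iSup_le (fun a => Real.iSup_le (fun b => Real.iSup_le (fun hab => ?_) hu0) hu0) hu0
    exact (thetaGrp_facts hab.1 hq hpq hab.2).2.1 u hu

theorem rhs_mono {p q p' q' : ℕ} (hq : 0 < q) (hpq : 2 * q ≤ p) (hq' : 0 < q')
    (h : p * q' ≤ p' * q) : rhs p q ≤ rhs p' q' := by
  have hpq' : 2 * q' ≤ p' := by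
    have h1 : 2 * q' * q ≤ p' * q := by
      calc 2 * q' * q = 2 * q * q' := by ring
        _ ≤ p * q' := Nat.mul_le_mul_right q' hpq
        _ ≤ p' * q := h
    exact Nat.le_of_mul_le_mul_right h1 hq
  refine (isLUB_rhs hq hpq).2 ?_
  rintro t ⟨n, k, hk, rfl⟩
  exact (isLUB_rhs hq' hpq').1 ⟨n, k, grpSizes_mono hq hpq hq' h hk, rfl⟩

theorem le_rhs {n k p q : ℕ} (hq : 0 < q) (hpq : 2 * q ≤ p) (hk : k ∈ GrpSizes (n + 1) p q) :
    (k : ℝ) ^ ((1 : ℝ) / ((n : ℝ) + 1)) ≤ rhs p q := (isLUB_rhs hq hpq).1 ⟨n, k, hk, rfl⟩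

theorem dbl_seventeen : ∀ h : ZMod 17, h ≠ 0 → ∃ i : Fin 4,
    7 ≤ (((2 ^ i.val : ℕ) : ZMod 17) * h).val * 1 ∧
      (((2 ^ i.val : ℕ) : ZMod 17) * h).val * 1 + 7 ≤ 17 * 1 := by
  decide +kernel

theorem dbl_big : ∀ h < 257, h ≠ 0 → ∃ i < 8,
    106 ≤ (2 ^ i * h) % 257 ∧ (2 ^ i * h) % 257 + 106 ≤ 257 := by
  decide +kernel

theorem seventeen_grp : 17 ∈ GrpSizes 4 17 7 := by
  obtain ⟨H, h1, h2⟩ := cyclic_mem (n := 4) (N := 17) (b := 7) (p := 1) (by norm_num) one_pos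
    (fun i => 2 ^ i.val) 0 rfl dbl_seventeen
  exact ⟨17 * 1, 7, by norm_num, by norm_num, H, h1, h2⟩

theorem big_grp : 257 ∈ GrpSizes 8 257 106 := by
  obtain ⟨H, h1, h2⟩ := cyclic_mem (n := 8) (N := 257) (b := 106) (p := 1) (by norm_num) one_pos
    (fun i => 2 ^ i.val) 0 rfl (by
      intro h hh
      obtain ⟨i, hi, h3, h4⟩ := dbl_big h.val (ZMod.val_lt h)
        (fun h0 => hh ((ZMod.val_eq_zero h).1 h0))
      refine ⟨⟨i, hi⟩, ?_⟩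
      have e : (((2 ^ i : ℕ) : ZMod 257) * h).val = (2 ^ i * h.val) % 257 := by
        rw [← ZMod.val_natCast, Nat.cast_mul, ZMod.natCast_zmod_val]
      show 106 ≤ (((2 ^ i : ℕ) : ZMod 257) * h).val * 1 ∧
        (((2 ^ i : ℕ) : ZMod 257) * h).val * 1 + 106 ≤ 257 * 1
      rw [e]
      omega)
  exact ⟨257 * 1, 106, by norm_num, by norm_num, H, h1, h2⟩

end Pool.Agent.Hhelper30.FracLow
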